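import Pool.Agent.N127.TW.Cone

set_option autoImplicit false

/-! # Global topological zeta functions of polynomials whose singularities are iterated cones

Let `f ∈ ℂ[x_1, ..., x_N]` be a polynomial all of whose germs are in the following class (`ConeGerm`),
the smallest class of germs `g ∈ ℂ[[x_1, ..., x_N]]` with the properties:

* It contains the germs which become, in suitable formal coordinates and up to a unit, polynomials of
  the class `𝓢` (`SusZeta`): the iterated suspensions `z ^ k + F`, and powers `F ^ k`, starting from the
  polynomials `h(x_1, x_2) (f_0(x_1, x_2) + ∑_j w_j f_j(x_1, x_2)) ^ a`. In particular it contains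
  the smooth germs and the reduced germs of corank at most two.
* It contains `g` if `g` becomes, in suitable formal coordinates and up to a unit,
  `G = h(x) ∏_t (∑_j y_{t,j} f_{t,j}(x)) ^ a_t`, where `h` and the `f_{t,j}` are forms in
  `x = (x_0, ..., x_n)`, and if the germs of `G` at the points `(q, 0)`, `q ≠ 0`, are in the class.

The local zeta functions are described in `ConeGerm`, and the global zeta function of `f` (`e = 1`; or
the `e`-th twisted one) is `χ_0 + ∑_i χ_i Z_i`, where the `Z_i` are the different local ones and the
`χ`s are the Euler characteristics of the corresponding sets of points.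

The theorem: every pole `s₀` of `χ_0 + ∑_i χ_i Z_i` is a root of the Bernstein-Sato polynomial `b` of `f`,
provided that for each cone which occurs either `s₀ ≠ -(n + 1) / d` (`d` is the degree of `G` in `x`),
or `n + 1` of the generators of the ideal `h ∏_t (f_{t,j})_j ^ a_t` have a nonzero Jacobian determinant,
or `n = 2` and the linear system `V` spanned by these generators is composed with a pencil and satisfies
one of the conditions `RootCond` (in `Pool.Agent.N127.PB.CondDefs`). By the theorem of Malgrange and
Kashiwara, `exp(2 π i s₀)` is then a monodromy eigenvalue of `f`. -/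

namespace Pool.Agent.Results.MP_a2a574_ag.ConeGermsGlobal

open MvPolynomial Pool.Agent.N127.TW
open Pool.Agent.H628R4.TP (IsBFunction)
open Pool.Agent.Y229.RE (trans)

/-- **The strong monodromy conjecture for polynomials whose singularities are iterated cones.** Let
`b` satisfy a functional equation `b(s) f ^ s = P(s) f ^ (s + 1)`, let `p_i` be points, let `z_i` be the
`e`-th twisted local topological zeta function of `f` at `p_i` (`ConeGerm`; `e ≥ 1`, the usual one is
`e = 1`), and let `χ_0`, `χ_i` be integers. Then each pole `s₀` of `χ_0 + ∑_i χ_i z_i` is a root of `b`,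
if the conditions in `ConeGerm` are satisfied for `s₀`. -/
theorem result {N : ℕ} (f : MvPolynomial (Fin N) ℂ) (b : Polynomial ℂ) (hb : IsBFunction f b)
    (e : ℕ) (he : 1 ≤ e) (s₀ : ℂ) (l : ℕ) (p : Fin l → Fin N → ℂ) (z : Fin l → RatFunc ℂ)
    (hz : ∀ i, ConeGerm e s₀ (trans (p i) f : MvPowerSeries (Fin N) ℂ) (z i)) (χ₀ : ℤ)
    (χ : Fin l → ℤ)
    (hs₀ : ((χ₀ : RatFunc ℂ) + ∑ i, (χ i : RatFunc ℂ) * z i).denom.eval s₀ = 0) :
    b.eval s₀ = 0 := by
  by_contra hne
  refine Pool.Agent.W574.SM.Reg_denom s₀ _ (sum_reg z (fun i => ?_) χ₀ χ) hs₀
  exact (hz i).reg he hne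
    (Pool.Agent.Y229.PS.formal_of_local (Pool.Agent.Y229.RE.trans_local (p i) hb))

end Pool.Agent.Results.MP_a2a574_ag.ConeGermsGlobal
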