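import Pool.Agent.N103.V.Final

set_option autoImplicit false

/-!
# The monodromy conjecture for polynomials whose germs are iterated suspensions

Let `𝓢` be the least class of polynomials (with a point) which contains

* the polynomials at smooth points of `F = 0`,
* the polynomials `h(x) (f₀(x) + ∑ y_j f_j(x)) ^ a`, `x = (x₁, x₂)`, with arbitrary `h`, `f₀`, `f_j` and
  `a ≥ 1`; in particular all the polynomials in two variables, and all the polynomials of degree at
  most one in all but two variables,
* with `G` the suspension `z ^ d + G`, `d ≥ 2`, and the powers `G ^ k`.

Let `f` be a polynomial all of whose germs at the points of `f = 0` become polynomials in `𝓢` in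
suitable formal coordinates, up to a unit. By the splitting lemma, these are for example all the
polynomials `f` such that `f = 0` has only singular points where the Hessian has corank at most two.
We prove the monodromy conjecture, in its strong form, for the topological zeta function of `f`,
and for the twisted ones: every pole is a root of the Bernstein-Sato polynomial of `f`; so
`exp(2 π i s₀)` is an eigenvalue of the monodromy of `f` (Malgrange, Kashiwara).

By additivity of the Euler characteristic, the global topological zeta function of `f` (with the
condition `e ∣ N_i` for the twisted one) is `c + ∑_i χ_i Z_{i,e}(s)` for a finite partition of `f = 0`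
in constructible sets `S_i` with the Euler characteristics `χ_i`, such that the local zeta functions
of `f` at all the points of `S_i` are the `Z_{i,e}`, and `c` is the Euler characteristic of the
complement of `f = 0`. We prove the statement for all integers `c` and `χ_i`. See `SusZeta` for the
class `𝓢` and the zeta functions of its members.
-/

namespace Pool.Agent.Results.MP_a2a574_ag.SuspensionGermsGlobal

open Pool.Agent.N103.V
open Pool.Agent.H628R4.TP (IsBFunction)
open Pool.Agent.Y229.RE (trans)

/-- **The monodromy conjecture, in the strong form, for the topological zeta functions of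
polynomials whose germs are iterated suspensions of the functions
`h(x₁, x₂) (f₀(x₁, x₂) + ∑ y_j f_j(x₁, x₂)) ^ a`.**

Let `f` be a polynomial, and for `i` in a finite set let the germ `f(p_i + x)` (`trans (p i) f`) of `f`
at the point `p_i` become the polynomial `F_i` in suitable formal coordinates, up to a unit
(`BecomesAt`), where `SusZeta (σ i) (F i) 0 (Z i)`, that is, `F_i` is in the class `𝓢`, and `Z i e`,
`e ≥ 1`, is its `e`-th twisted local topological zeta function at the origin, and so the one of `f` at
`p_i`; `Z i 1` is the local topological zeta function. Let `b` satisfy a functional equation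
`b(s) f ^ s = P(s) f ^ (s + 1)`, where `P(s)` is a differential operator with polynomial coefficients.
Then every pole of `χ0 + ∑_i χ_i Z_{i,e}`, where `χ0` and the `χ_i` are any integers, is a root of
`b`. -/
theorem result {N : ℕ} (f : MvPolynomial (Fin N) ℂ) (b : Polynomial ℂ) (hb : IsBFunction f b)
    (e : ℕ) (he : 1 ≤ e) {ι : Type} [Fintype ι] (χ : ι → ℤ) (p : ι → Fin N → ℂ) (σ : ι → Type)
    (F : ∀ i, MvPolynomial (σ i) ℂ)
    (hF : ∀ i, BecomesAt (trans (p i) f : MvPowerSeries (Fin N) ℂ) (F i))
    (Z : ι → ℕ → RatFunc ℂ) (hZ : ∀ i, SusZeta (σ i) (F i) 0 (Z i)) (χ0 : ℤ) (s₀ : ℂ)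
    (hs₀ : ((χ0 : RatFunc ℂ) + ∑ i, (χ i : RatFunc ℂ) * Z i e).denom.eval s₀ = 0) :
    b.eval s₀ = 0 :=
  germ_global f b hb e he χ p σ F hF Z hZ χ0 s₀ hs₀

end Pool.Agent.Results.MP_a2a574_ag.SuspensionGermsGlobal
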